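import Pool.Agent.Lib.MP_305fdd_al.LF.Main
import Pool.Agent.Lib.MP_305fdd_al.LF.P.A
import Pool.Agent.Lib.MP_305fdd_al.LF.P.B1
import Pool.Agent.Lib.MP_305fdd_al.LF.P.B2
import Pool.Agent.Lib.MP_305fdd_al.LF.P.C1
import Pool.Agent.Lib.MP_305fdd_al.LF.P.C2
import Pool.Agent.Lib.MP_305fdd_al.LF.P.D
import Pool.Agent.Lib.MP_305fdd_al.LF.P.E1
import Pool.Agent.Lib.MP_305fdd_al.LF.P.E2
import Pool.Agent.Lib.MP_305fdd_al.LF.P.E3
import Pool.Agent.Lib.MP_305fdd_al.Fr.Asm.Rigid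

/-!
# MP_305fdd_al, LF: groups with separable subgroups in the genus of a group which fibres
-/

set_option autoImplicit false

namespace Pool.Agent.LF

open Pool.Agent.MP_305fdd_al Pool.Agent.Lib.MP_305fdd_al Pool.Agent.F2X Pool.Agent.F8 Pool.Agent.F8.HN

theorem all_B : S_B := p_B p_B1 p_B2

theorem all_F : S_F := p_F p_A all_B

/-- groups with a profinitely rigid fibre -/
theorem fibre {Γ : Type} [Group Γ] (c : Γ →* Multiplicative ℤ) (hc : Function.Surjective c)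
    (hfg : c.ker.FG) (hr : ProfinitelyRigid c.ker) (hb : ∀ f : Γ →* Multiplicative ℤ, c.ker ≤ f.ker)
    (Λ : Type) [Group Λ] (hfp : Group.IsFinitelyPresented Λ) (hΛ : LERF Λ)
    (h : SameFiniteQuotients Λ Γ) : ∃ χ : Λ →* Multiplicative ℤ,
      Function.Surjective χ ∧ Nonempty (χ.ker ≃* c.ker) := by
  obtain ⟨-, χ, h1, h2, -⟩ := main_aux all_F p_C1 p_C2 p_D c hc hfg hr hb Λ hfp hΛ h
  exact ⟨χ, h1, h2⟩

/-- bundle groups -/
theorem bundles (β : MulAut F) (hβ : ((AM β).val - 1).det ≠ 0) (Λ : Type) [Group Λ]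
    (hfp : Group.IsFinitelyPresented Λ) (hΛ : LERF Λ) (h : SameFiniteQuotients Λ (GA β)) :
    ∃ γ : MulAut F, Nonempty (Λ ≃* GA γ) ∧ (AM γ).val.det = (AM β).val.det ∧
      (AM γ).val.trace = (AM β).val.trace ∧ cont (AM γ).val = cont (AM β).val :=
  bundles_aux all_F p_C1 p_C2 p_D p_E1 p_E2 p_E4 p_E5s p_E6 (FrAsm.rigid 2) β hβ Λ hfp hΛ h

end Pool.Agent.LF
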