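import Pool.Agent.Lib.MP_305fdd_al.LF.Stm
import Pool.Agent.Lib.MP_305fdd_al.F8.StmHN

/-!
# MP_305fdd_al: groups with separable subgroups in the genus of a once-punctured torus bundle

Statements about `GA β = F ⋊_β ℤ`, `AM β` the matrix of `β`.
-/

set_option autoImplicit false

namespace Pool.Agent.LF

open Pool.Agent.MP_305fdd_al Pool.Agent.Lib.MP_305fdd_al Pool.Agent.F2X Pool.Agent.F8 Pool.Agent.F8.HN

/-- the greatest `m` such that the matrix is scalar modulo `m` -/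
def cont (A : Matrix (Fin 2) (Fin 2) ℤ) : ℕ :=
  Nat.gcd (Int.gcd (A 0 1) (A 1 0)) (Int.natAbs (A 0 0 - A 1 1))

/-- (E1) the matrices of two automorphisms whose groups have the same finite quotients are conjugate
modulo `m` to powers of each other -/
def S_E1 : Prop := ∀ (β γ : MulAut F) (Φ : NatBij (GA γ) (GA β)),
  (∀ (Q : Type) [Group Q] [Finite Q] (θ : GA γ →* Q),
    (nA γ).ker.map θ = (nA β).ker.map (Φ.toFun Q θ)) →
  ∀ m : ℕ, 0 < m → ∃ (u : ℕ) (X : GL (Fin 2) (ZMod m)), Odd u ∧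
    X * Pool.Agent.F2X.red m (AM γ) = Pool.Agent.F2X.red m (AM β) ^ u * X

/-- (E2) matrices which are conjugate modulo all `m` to odd powers of each other -/
def S_E2 : Prop := ∀ A B : GL (Fin 2) ℤ, (B.val - 1).det ≠ 0 →
  (∀ m : ℕ, 0 < m → ∃ (u : ℕ) (X : GL (Fin 2) (ZMod m)), Odd u ∧
    X * Pool.Agent.F2X.red m A = Pool.Agent.F2X.red m B ^ u * X) →
  (∀ m : ℕ, 0 < m → ∃ (u : ℕ) (X : GL (Fin 2) (ZMod m)), Odd u ∧
    X * Pool.Agent.F2X.red m B = Pool.Agent.F2X.red m A ^ u * X) →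
  A.val.det = B.val.det ∧ cont A.val = cont B.val ∧
    (A.val.trace = B.val.trace ∨ (A⁻¹).val.trace = B.val.trace)

/-- (E3) conjugate matrices give isomorphic groups -/
def S_E3 : Prop := ∀ (β γ : MulAut F) (X : GL (Fin 2) ℤ), X * AM γ = AM β * X →
  Nonempty (GA γ ≃* GA β)

/-- (E4) the group of the inverse automorphism -/
def S_E4 : Prop := ∀ β : MulAut F, Nonempty (GA β⁻¹ ≃* GA β)

/-- (E5) an extension of `ℤ` by the free group is a bundle group -/
def S_E5 : Prop := ∀ (Λ : Type) [Group Λ] (χ : Λ →* Multiplicative ℤ), Function.Surjective χ →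
  Nonempty (χ.ker ≃* F) → ∃ γ : MulAut F, Nonempty (Λ ≃* GA γ)

/-- (E6) the first Betti number -/
def S_E6 : Prop := ∀ β : MulAut F, ((AM β).val - 1).det ≠ 0 →
  ∀ f : GA β →* Multiplicative ℤ, (nA β).ker ≤ f.ker

end Pool.Agent.LF
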