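import Pool.Agent.Lib.MP_305fdd_al.LF.P.F
import Pool.Agent.Lib.MP_305fdd_al.LF.StmE

/-!
# MP_305fdd_al, LF: the main theorem
-/

set_option autoImplicit false

namespace Pool.Agent.LF

open Pool.Agent.MP_305fdd_al Pool.Agent.Lib.MP_305fdd_al

theorem fg_of_fp (Λ : Type) [Group Λ] (h : Group.IsFinitelyPresented Λ) : Group.FG Λ := by
  obtain ⟨N, φ, hφ, -⟩ := h.out
  exact Group.fg_of_surjective hφ

theorem rf_of_lerf {Λ : Type} [Group Λ] (h : LERF Λ) (H : Subgroup Λ) :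
    Group.ResiduallyFinite H := by
  refine Group.residuallyFinite_iff_exists_finiteIndex.2 fun x hx => ?_
  have hx' : (x : Λ) ∉ (⊥ : Subgroup Λ) := fun h1 => hx (Subtype.ext (Subgroup.mem_bot.1 h1))
  obtain ⟨U, hU, -, hxU⟩ := h ⊥ (by rw [Subgroup.fg_iff]; exact ⟨∅, by simp, Set.finite_empty⟩) _ hx'
  exact ⟨U.subgroupOf H, inferInstance, fun h1 => hxU (Subgroup.mem_subgroupOf.1 h1)⟩

theorem fg_of_ker {Γ : Type} [Group Γ] (c : Γ →* Multiplicative ℤ) (hc : Function.Surjective c)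
    (h : c.ker.FG) : Group.FG Γ := by
  obtain ⟨S, hS⟩ := h
  obtain ⟨s', hs'⟩ := hc (Multiplicative.ofAdd 1)
  classical
  rw [Group.fg_def]
  refine ⟨insert s' S, ?_⟩
  rw [eq_top_iff]
  intro g _
  have h1 : g * (s' ^ (Multiplicative.toAdd (c g)))⁻¹ ∈ c.ker := by
    show c _ = 1
    rw [map_mul, map_inv, map_zpow, hs', ← ofAdd_zsmul]
    simp
  have h2 : g = g * (s' ^ (Multiplicative.toAdd (c g)))⁻¹ * s' ^ (Multiplicative.toAdd (c g)) := by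
    group
  rw [h2]
  refine mul_mem ?_ (zpow_mem (Subgroup.subset_closure (by simp)) _)
  rw [← hS] at h1
  exact Subgroup.closure_mono (by simp) h1

/-- the main theorem, with the correspondence -/
theorem main_aux (hF : S_F) (hC1 : S_C1) (hC2 : S_C2) (hD : S_D) {Γ : Type} [Group Γ]
    (c : Γ →* Multiplicative ℤ) (hc : Function.Surjective c) (hfg : c.ker.FG)
    (hr : ProfinitelyRigid c.ker) (hb : ∀ f : Γ →* Multiplicative ℤ, c.ker ≤ f.ker)
    (Λ : Type) [Group Λ] (hfp : Group.IsFinitelyPresented Λ) (hΛ : LERF Λ)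
    (h : SameFiniteQuotients Λ Γ) : ∃ (Φ : NatBij Λ Γ) (χ : Λ →* Multiplicative ℤ),
      Function.Surjective χ ∧ Nonempty (χ.ker ≃* c.ker) ∧
      ∀ (Q : Type) [Group Q] [Finite Q] (θ : Λ →* Q), χ.ker.map θ = c.ker.map (Φ.toFun Q θ) := by
  have hΛfg : Group.FG Λ := fg_of_fp Λ hfp
  have hΓfg : Group.FG Γ := fg_of_ker c hc hfg
  obtain ⟨Φ⟩ := exists_natBij h
  obtain ⟨χ, hχ, hM⟩ := hC1 Λ Γ Φ c hc hb
  have hfg' : χ.ker.FG := hF Λ Γ Φ χ c hΛ hχ hc hfg hM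
  have hm := hC2 Λ Γ Φ χ c hχ hc hM
  have hm' : ∀ (Q : Type) [Group Q] [Finite Q] (θ : Γ →* Q),
      c.ker.map θ = χ.ker.map (Φ.symm.toFun Q θ) := fun Q _ _ θ => by
    have h1 := hm Q (Φ.invFun Q θ)
    rw [Φ.right_inv] at h1
    exact h1.symm
  refine ⟨Φ, χ, hχ, ?_, fun Q _ _ θ => hm Q θ⟩
  have hsame : SameFiniteQuotients χ.ker c.ker := fun P _ _ =>
    ⟨fun ⟨p, hp⟩ => hD Λ Γ Φ χ c hχ hfg' (fun Q _ _ θ => hm Q θ) P p hp,
      fun ⟨p, hp⟩ => hD Γ Λ Φ.symm c χ hc hfg (fun Q _ _ θ => hm' Q θ) P p hp⟩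
  exact hr χ.ker ⟨(Group.fg_iff_subgroup_fg _).2 hfg', rf_of_lerf hΛ _, hsame⟩

/-! ### Bundle groups -/

open Pool.Agent.F2X Pool.Agent.F8 Pool.Agent.F8.HN

/-- transport of a natural bijection along an isomorphism -/
noncomputable def congrN {Λ Λ' Γ : Type} [Group Λ] [Group Λ'] [Group Γ] (e : Λ ≃* Λ')
    (Φ : NatBij Λ Γ) : NatBij Λ' Γ where
  toFun Q _ _ θ := Φ.toFun Q (θ.comp e.toMonoidHom)
  invFun Q _ _ θ := (Φ.invFun Q θ).comp e.symm.toMonoidHom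
  left_inv Q _ _ θ := by
    rw [Φ.left_inv]
    ext x
    simp
  right_inv Q _ _ θ := by
    rw [MonoidHom.comp_assoc]
    have : (e.symm.toMonoidHom.comp e.toMonoidHom) = MonoidHom.id Λ := by
      ext x
      simp
    rw [this, MonoidHom.comp_id, Φ.right_inv]
  nat f θ := by
    rw [MonoidHom.comp_assoc, Φ.nat]

/-- (E5) with the projection -/
def S_E5s : Prop := ∀ (Λ : Type) [Group Λ] (χ : Λ →* Multiplicative ℤ), Function.Surjective χ →
  Nonempty (χ.ker ≃* F) → ∃ (γ : MulAut F) (e : Λ ≃* GA γ), ∀ x, nA γ (e x) = χ x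

theorem det_cases (A : GL (Fin 2) ℤ) : (A.val.det = 1 ∧ (A⁻¹).val.det = 1) ∨
    (A.val.det = -1 ∧ (A⁻¹).val.det = -1) := by
  have h : A.val.det * (A⁻¹).val.det = 1 := by
    rw [← Matrix.det_mul, ← Units.val_mul, mul_inv_cancel, Units.val_one, Matrix.det_one]
  rcases Int.eq_one_or_neg_one_of_mul_eq_one h with h1 | h1
  · left
    rw [h1] at h
    exact ⟨h1, by linarith⟩
  · right
    rw [h1] at h
    exact ⟨h1, by linarith⟩

theorem det_inv' (A : GL (Fin 2) ℤ) : (A⁻¹).val.det = A.val.det := by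
  rcases det_cases A with ⟨h1, h2⟩ | ⟨h1, h2⟩ <;> rw [h1, h2]

theorem inv_eq_adj (A : GL (Fin 2) ℤ) : (A⁻¹).val = A.val.det • A.val.adjugate := by
  have h1 : (A⁻¹).val * (A.val * A.val.adjugate) = A.val.adjugate := by
    rw [← mul_assoc, ← Units.val_mul, inv_mul_cancel, Units.val_one, one_mul]
  rw [Matrix.mul_adjugate, Matrix.mul_smul, mul_one] at h1
  rw [← h1, smul_smul]
  have h2 : A.val.det * A.val.det = 1 := by
    rcases det_cases A with ⟨h1, -⟩ | ⟨h1, -⟩ <;> rw [h1] <;> norm_num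
  rw [h2, one_smul]

theorem cont_inv (A : GL (Fin 2) ℤ) : cont (A⁻¹).val = cont A.val := by
  have h : ∀ i j, (A⁻¹).val i j = A.val.det * A.val.adjugate i j := fun i j => by
    rw [inv_eq_adj]; rfl
  unfold cont
  rw [h, h, h, h, Matrix.adjugate_fin_two]
  have e1 : !![A.val 1 1, -A.val 0 1; -A.val 1 0, A.val 0 0] 0 1 = -A.val 0 1 := rfl
  have e2 : !![A.val 1 1, -A.val 0 1; -A.val 1 0, A.val 0 0] 1 0 = -A.val 1 0 := rfl
  have e3 : !![A.val 1 1, -A.val 0 1; -A.val 1 0, A.val 0 0] 0 0 = A.val 1 1 := rfl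
  have e4 : !![A.val 1 1, -A.val 0 1; -A.val 1 0, A.val 0 0] 1 1 = A.val 0 0 := rfl
  rw [e1, e2, e3, e4]
  have h5 : (A.val 1 1 - A.val 0 0).natAbs = (A.val 0 0 - A.val 1 1).natAbs := by
    rw [← Int.natAbs_neg, neg_sub]
  rcases det_cases A with ⟨h1, -⟩ | ⟨h1, -⟩
  · rw [h1, one_mul, one_mul, one_mul, one_mul, Int.neg_gcd, Int.gcd_neg, h5]
  · rw [h1]
    simp only [neg_mul, one_mul, neg_neg]
    congr 2
    ring

theorem bundles_aux (hF : S_F) (hC1 : S_C1) (hC2 : S_C2) (hD : S_D) (hE1 : S_E1) (hE2 : S_E2)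
    (hE4 : S_E4) (hE5 : S_E5s) (hE6 : S_E6) (hrF : ProfinitelyRigid F) (β : MulAut F)
    (hβ : ((AM β).val - 1).det ≠ 0) (Λ : Type) [Group Λ] (hfp : Group.IsFinitelyPresented Λ)
    (hΛ : LERF Λ) (h : SameFiniteQuotients Λ (GA β)) :
    ∃ γ : MulAut F, Nonempty (Λ ≃* GA γ) ∧ (AM γ).val.det = (AM β).val.det ∧
      (AM γ).val.trace = (AM β).val.trace ∧ cont (AM γ).val = cont (AM β).val := by
  have hk : Nonempty ((nA β).ker ≃* F) := by
    refine ⟨(MulEquiv.ofBijective ((iA β).codRestrict (nA β).ker fun w => nA_iA β w) ⟨?_, ?_⟩).symm⟩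
    · intro a b hab
      exact iA_injective β (congrArg Subtype.val hab)
    · rintro ⟨x, hx⟩
      obtain ⟨w, rfl⟩ := GA_ker β x hx
      exact ⟨w, rfl⟩
  obtain ⟨ek⟩ := hk
  have hfgF : Group.FG F := inferInstance
  have hfg : (nA β).ker.FG := (Group.fg_iff_subgroup_fg _).1 
    (Group.fg_of_surjective (f := ek.symm.toMonoidHom) ek.symm.surjective)
  have hr : ProfinitelyRigid (nA β).ker := by
    intro L _ hL
    obtain ⟨e⟩ := hrF L ⟨hL.1, hL.2.1, hL.2.2.trans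
      (sameFQ_of_surj ek.toMonoidHom ek.surjective ek.symm.toMonoidHom ek.symm.surjective)⟩
    exact ⟨e.trans ek.symm⟩
  obtain ⟨Φ, χ, hχ, ⟨e1⟩, hm⟩ := main_aux hF hC1 hC2 hD (nA β) (nA_surjective β) hfg hr
    (hE6 β hβ) Λ hfp hΛ h
  obtain ⟨γ, e, he⟩ := hE5 Λ χ hχ ⟨e1.trans ek⟩
  -- the kernels correspond
  have hker : ∀ (Q : Type) [Group Q] (θ : GA γ →* Q),
      (nA γ).ker.map θ = χ.ker.map (θ.comp e.toMonoidHom) := by
    intro Q _ θ
    ext z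
    constructor
    · rintro ⟨y, hy, rfl⟩
      refine ⟨e.symm y, ?_, ?_⟩
      · show χ (e.symm y) = 1
        rw [← he, MulEquiv.apply_symm_apply]
        exact hy
      · show θ (e (e.symm y)) = θ y
        rw [MulEquiv.apply_symm_apply]
    · rintro ⟨y, hy, rfl⟩
      refine ⟨e y, ?_, rfl⟩
      show nA γ (e y) = 1
      rw [he]
      exact hy
  let Ψ : NatBij (GA γ) (GA β) := congrN e Φ
  have m1 : ∀ (Q : Type) [Group Q] [Finite Q] (θ : GA γ →* Q),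
      (nA γ).ker.map θ = (nA β).ker.map (Ψ.toFun Q θ) := fun Q _ _ θ => by
    rw [hker Q θ, hm]
    rfl
  have m2 : ∀ (Q : Type) [Group Q] [Finite Q] (θ : GA β →* Q),
      (nA β).ker.map θ = (nA γ).ker.map (Ψ.symm.toFun Q θ) := fun Q _ _ θ => by
    have h1 := m1 Q (Ψ.invFun Q θ)
    rw [Ψ.right_inv] at h1
    exact h1.symm
  have k1 := hE1 β γ Ψ (fun Q _ _ θ => m1 Q θ)
  have k2 := hE1 γ β Ψ.symm (fun Q _ _ θ => m2 Q θ)
  obtain ⟨d1, d2, d3⟩ := hE2 (AM γ) (AM β) hβ k1 k2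
  rcases d3 with d3 | d3
  · exact ⟨γ, ⟨e⟩, d1, d3, d2⟩
  · obtain ⟨e4⟩ := hE4 γ
    refine ⟨γ⁻¹, ⟨e.trans e4.symm⟩, ?_, ?_, ?_⟩
    · rw [map_inv, det_inv', d1]
    · rw [map_inv, d3]
    · rw [map_inv, cont_inv, d2]

end Pool.Agent.LF
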