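import Pool.Agent.Lib.MP_305fdd_al.NatBij

/-!
# MP_305fdd_al: groups with separable subgroups in the genus of a group which fibres

Statements. `W t s k` is the subgroup generated by the conjugates `t ^ i s_j t ^ -i`, `i < k`.
-/

set_option autoImplicit false

namespace Pool.Agent.LF

open Pool.Agent.MP_305fdd_al Pool.Agent.Lib.MP_305fdd_al

/-- every finitely generated subgroup is an intersection of subgroups of finite index -/
def LERF (G : Type) [Group G] : Prop :=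
  ∀ H : Subgroup G, H.FG → ∀ x : G, x ∉ H → ∃ U : Subgroup G, U.FiniteIndex ∧ H ≤ U ∧ x ∉ U

/-- reduction modulo `m` -/
def red (m : ℕ) : Multiplicative ℤ →* Multiplicative (ZMod m) :=
  AddMonoidHom.toMultiplicative (Int.castAddHom (ZMod m))

/-- the subgroup generated by `t ^ i s_j t ^ -i`, `i < k` -/
def W {Λ : Type} [Group Λ] {n : ℕ} (t : Λ) (s : Fin n → Λ) (k : ℕ) : Subgroup Λ :=
  Subgroup.closure {x | ∃ i : ℕ, i < k ∧ ∃ j : Fin n, x = t ^ i * s j * (t ^ i)⁻¹}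

/-- the lifting property: the relations between the `s_j` and `t` follow from those between the
conjugates `t ^ i s_j t ^ -i`, `i < k` -/
def Lft {Λ : Type} [Group Λ] {n : ℕ} (t : Λ) (s : Fin n → Λ) (k : ℕ) : Prop :=
  ∀ (G : Type) [Group G] (ρ : Λ →* G) (τ : G),
    (∀ i : ℕ, i < k → ∀ j : Fin n, τ ^ i * ρ (s j) * (τ ^ i)⁻¹ = ρ (t ^ i * s j * (t ^ i)⁻¹)) →
    ∃ Ψ : Λ →* G, (∀ j, Ψ (s j) = ρ (s j)) ∧ Ψ t = τ

/-- (A) finitely presented groups have the lifting property -/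
def S_A : Prop := ∀ (Λ : Type) [Group Λ] [Group.IsFinitelyPresented Λ] (n : ℕ) (s : Fin n → Λ)
  (t : Λ) (χ : Λ →* Multiplicative ℤ), (∀ j, χ (s j) = 1) → χ t = Multiplicative.ofAdd 1 →
  Subgroup.closure (Set.range s ∪ {t}) = ⊤ → ∃ k₀ : ℕ, ∀ k, k₀ ≤ k → Lft t s k

/-- the wreath product with the group with two elements -/
abbrev Wr (X : Type) [Group X] : Type := RegularWreathProduct (Multiplicative (ZMod 2)) X

/-- the lifts of `q` to the wreath product -/
abbrev Lifts {G X : Type} [Group G] [Group X] (q : G →* X) : Type :=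
  {ψ : G →* Wr X // (RegularWreathProduct.rightHom (D := Multiplicative (ZMod 2)) (Q := X)).comp ψ = q}

/-- (B1) many lifts -/
def S_B1 : Prop := ∀ (Λ X : Type) [Group Λ] [Group X] [Finite X] (n : ℕ) (s : Fin n → Λ) (t : Λ)
  (k : ℕ) (q : Λ →* X), Subgroup.closure (Set.range s ∪ {t}) = ⊤ → Lft t s (k + 1) →
  Nat.card (X → Multiplicative (ZMod 2)) * 2 ^ ((W t s k).map q).index ≤
    Nat.card (Lifts q) * 2 ^ ((W t s (k + 1)).map q).index

/-- (B2) few lifts -/
def S_B2 : Prop := ∀ (Γ Q : Type) [Group Γ] [Group Q] [Finite Q] (N : Subgroup Γ) (r : ℕ)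
  (y : Fin r → Γ) (g : Γ →* Q) (m : ℕ) [NeZero m] (d : Γ →* Multiplicative (ZMod m)) (s : Γ),
  N.Normal → Subgroup.closure (Set.range y) = N → Subgroup.closure ((N : Set Γ) ∪ {s}) = ⊤ →
  (∀ x ∈ N, d x = 1) → Function.Surjective d →
  Nat.card (Lifts (g.prod d)) ≤ Nat.card (Q × Multiplicative (ZMod m) → Multiplicative (ZMod 2)) *
    Nat.card (Q → Multiplicative (ZMod 2)) ^ r

/-- the kernels of `χ` and `c` correspond to each other -/
def Mt {Λ Γ : Type} [Group Λ] [Group Γ] (Φ : NatBij Λ Γ) (χ : Λ →* Multiplicative ℤ)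
    (c : Γ →* Multiplicative ℤ) : Prop :=
  ∀ (m : ℕ) [NeZero m], c.ker ≤ (Φ.toFun (Multiplicative (ZMod m)) ((red m).comp χ)).ker

/-- (B) the images in finite quotients of `W t s k` and `W t s (k + 1)` are the same -/
def S_B : Prop := ∀ (Λ Γ : Type) [Group Λ] [Group Γ] (Φ : NatBij Λ Γ) (χ : Λ →* Multiplicative ℤ)
  (c : Γ →* Multiplicative ℤ), Function.Surjective c → c.ker.FG → Mt Φ χ c →
  ∀ (n : ℕ) (s : Fin n → Λ) (t : Λ), (∀ j, χ (s j) = 1) → χ t = Multiplicative.ofAdd 1 →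
  Subgroup.closure (Set.range s ∪ {t}) = ⊤ → ∀ k : ℕ, Lft t s (k + 1) →
  ∀ (Q : Type) [Group Q] [Finite Q] (q : Λ →* Q), (W t s (k + 1)).map q = (W t s k).map q

/-- (F) the kernel is finitely generated -/
def S_F : Prop := ∀ (Λ Γ : Type) [Group Λ] [Group Γ] [Group.IsFinitelyPresented Λ]
  (Φ : NatBij Λ Γ) (χ : Λ →* Multiplicative ℤ) (c : Γ →* Multiplicative ℤ), LERF Λ →
  Function.Surjective χ → Function.Surjective c → c.ker.FG → Mt Φ χ c → χ.ker.FG

/-- (C1) the homomorphism to `ℤ` -/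
def S_C1 : Prop := ∀ (Λ Γ : Type) [Group Λ] [Group Γ] [Group.FG Λ] [Group.FG Γ] (Φ : NatBij Λ Γ)
  (c : Γ →* Multiplicative ℤ), Function.Surjective c → (∀ f : Γ →* Multiplicative ℤ, c.ker ≤ f.ker) →
  ∃ χ : Λ →* Multiplicative ℤ, Function.Surjective χ ∧ Mt Φ χ c

/-- (C2) the images of the kernels in finite quotients -/
def S_C2 : Prop := ∀ (Λ Γ : Type) [Group Λ] [Group Γ] (Φ : NatBij Λ Γ)
  (χ : Λ →* Multiplicative ℤ) (c : Γ →* Multiplicative ℤ), Function.Surjective χ →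
  Function.Surjective c → Mt Φ χ c → ∀ (Q : Type) [Group Q] [Finite Q] (θ : Λ →* Q),
  χ.ker.map θ = c.ker.map (Φ.toFun Q θ)

/-- (D) finite quotients of a finitely generated kernel -/
def S_D : Prop := ∀ (Λ Γ : Type) [Group Λ] [Group Γ] (Φ : NatBij Λ Γ)
  (χ : Λ →* Multiplicative ℤ) (c : Γ →* Multiplicative ℤ), Function.Surjective χ → χ.ker.FG →
  (∀ (Q : Type) [Group Q] [Finite Q] (θ : Λ →* Q), χ.ker.map θ = c.ker.map (Φ.toFun Q θ)) →
  ∀ (P : Type) [Group P] [Finite P] (p : χ.ker →* P), Function.Surjective p →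
    ∃ p' : c.ker →* P, Function.Surjective p'

end Pool.Agent.LF
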