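import Pool.Agent.Lib.MP_305fdd_al.LF.StmE

/-!
# MP_305fdd_al, LF: matrices of trace five
-/

set_option autoImplicit false

namespace Pool.Agent.LF

open Matrix

/-- `[[4, 3], [1, 1]]`, of trace `5` and determinant `1` -/
def C5 : Matrix (Fin 2) (Fin 2) ℤ := !![4, 3; 1, 1]

/-- (c5) matrices of trace `5` and determinant `1` are conjugate -/
def S_c5 : Prop := ∀ A : GL (Fin 2) ℤ, A.val.trace = 5 → A.val.det = 1 →
  ∃ X : GL (Fin 2) ℤ, X.val * A.val = C5 * X.val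

/-- (c5N) the powers -/
def S_c5N : Prop := ∀ n : ℕ, 1 ≤ n → ∀ A : GL (Fin 2) ℤ, A.val.det = (C5 ^ n).det →
  A.val.trace = (C5 ^ n).trace → cont A.val = cont (C5 ^ n) →
  ∃ X : GL (Fin 2) ℤ, X.val * A.val = C5 ^ n * X.val

end Pool.Agent.LF
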